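import Pool.Agent.Helper335.Herm.Curve

/-! # MP_e444a1_co: all fields whose order is an odd square

For every finite field `F` whose order `q` is the square of an odd number the points of the
Hermitian curve `x ^ (√q + 1) + y ^ (√q + 1) + z ^ (√q + 1) = 0` of the projective plane over `F`
form a tangential 1-block over `F` of rank three with neither `U_{2,q+1}` nor `M(K_4)` as a minor.
Blocking: norms are surjective, so every two-dimensional Hermitian space has an isotropic vector;
minimality: the tangent lines; no `M(K_4)`: there is no O'Nan configuration. -/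

namespace Pool.Agent.Results.MP_e444a1_co.HermitianCurves

open Pool.Agent.Helper236

/-- The critical exponent `c(M; q)`: the least `j ≥ 1` with `p(M; q ^ j) ≠ 0`. -/
noncomputable def critExpPos {α : Type} (M : Matroid α) (q : ℕ) : ℕ∞ :=
  ⨅ j ∈ {j : ℕ | 1 ≤ j ∧ (charPoly M).eval ((q : ℤ) ^ j) ≠ 0}, (j : ℕ∞)

/-- `M` is a `k`-block over the finite field `F`: a finite simple matroid representable over `F`
with critical exponent larger than `k`. -/
def IsBlock (F : Type) [Field F] (k : ℕ) {α : Type} (M : Matroid α) : Prop :=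
  M.Finite ∧ IsSimple M ∧ Representable F M ∧ (k : ℕ∞) < critExpPos M (Nat.card F)

/-- `M` is a tangential `k`-block over `F`: it is a `k`-block and no proper minor of it is a
(simple) `k`-block. -/
def IsTangentialBlock (F : Type) [Field F] (k : ℕ) {α : Type} (M : Matroid α) : Prop :=
  IsBlock F k M ∧ ∀ N : Matroid α, N.IsMinor M → N ≠ M → ¬ IsBlock F k N

/-- `N` is the `m`-point line `U_{2,m}`. -/
def IsLine (m : ℕ) {α : Type} (N : Matroid α) : Prop :=
  N.E.ncard = m ∧ ∀ I ⊆ N.E, N.Indep I ↔ I.encard ≤ 2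

theorem eval_ne_zero_iff {F : Type} [Field F] [Finite F] {α W : Type*} [AddCommGroup W]
    [Module F W] [FiniteDimensional F W] {M : Matroid α} [M.Finite] {v : α → W}
    (h : Rep F M v) (k : ℕ) :
    (charPoly M).eval ((Nat.card F : ℤ) ^ k) ≠ 0 ↔
      ∃ f : W →ₗ[F] (Fin k → F), ∀ e ∈ M.E, f (v e) ≠ 0 := by
  rw [← eval_pos_iff h k]
  constructor
  · intro hne
    have h1 := crapo_rota h k
    have hq : (0 : ℤ) < (Nat.card F : ℤ) ^ (k * (Module.finrank F W - rk M M.E)) := by
      have : 0 < Nat.card F := Nat.card_pos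
      positivity
    have h2 : 0 ≤ (charPoly M).eval ((Nat.card F : ℤ) ^ k) := by
      by_contra hlt
      have h3 := mul_neg_of_pos_of_neg hq (not_le.1 hlt)
      rw [← h1] at h3
      omega
    omega
  · intro h1
    omega

/-- Crapo and Rota: `critExpPos` is the least `c ≥ 1` such that some `c` linear functionals
(hyperplanes) have no common zero in the point set. This is a check of the definition. -/
theorem critExpPos_le_iff {F : Type} [Field F] [Finite F] {α : Type} {M : Matroid α} [M.Finite]
    {n : ℕ} {v : α → (Fin n → F)} (h : Rep F M v) (c : ℕ) (hc : 1 ≤ c) :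
    critExpPos M (Nat.card F) ≤ c ↔
      ∃ f : Fin c → ((Fin n → F) →ₗ[F] F), ∀ e ∈ M.E, ∃ i, f i (v e) ≠ 0 := by
  constructor
  · intro hle
    have h1 : critExp M (Nat.card F) ≤ c := by
      refine le_trans ?_ hle
      refine le_iInf₂ fun j hj => ?_
      exact (critExp_le_iff h j).2 ((eval_ne_zero_iff h j).1 hj.2)
    obtain ⟨f, hf⟩ := (critExp_le_iff h c).1 h1
    refine ⟨fun i => (LinearMap.proj i).comp f, fun e he => ?_⟩
    by_contra hcon
    push Not at hcon
    apply hf e he
    ext i
    exact hcon i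
  · rintro ⟨f, hf⟩
    refine iInf₂_le c ⟨hc, (eval_ne_zero_iff h c).2 ⟨LinearMap.pi f, fun e he h0 => ?_⟩⟩
    obtain ⟨i, hi⟩ := hf e he
    exact hi (congrFun h0 i)

/-- **Hermitian curves.** For every finite field whose order is an odd square there is a
tangential 1-block of rank three with neither `U_{2,q+1}` nor `M(K_4)` as a minor. -/
theorem result (F : Type) [Field F] [Finite F] (hodd : Odd (Nat.card F))
    (hsq : IsSquare (Nat.card F)) :
    ∃ (α : Type) (M : Matroid α), rk M M.E = 3 ∧ IsTangentialBlock F 1 M ∧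
      (¬ ∃ N : Matroid α, N.IsMinor M ∧ IsLine (Nat.card F + 1) N) ∧
      ¬ ∃ N : Matroid α, N.IsMinor M ∧
        ∃ K : Matroid (Sym2 (Fin 4)), IsCompleteGraphMatroid 4 K ∧ Iso N K := by
  have h2 : (2 : F) ≠ 0 := by
    intro h0
    have : Fintype F := Fintype.ofFinite F
    have h1 : ringChar F = 2 := CharP.ringChar_of_prime_eq_zero Nat.prime_two (by exact_mod_cast h0)
    have h3 := FiniteField.even_card_of_char_two h1
    rw [Nat.card_eq_fintype_card, Nat.odd_iff] at hodd
    omega
  obtain ⟨σ, m, pt, hne0, hsimple, hherm, hblk, htan, i0, j0, l0, hdet⟩ :=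
    Pool.Agent.Helper335.Herm.exists_points F hsq h2
  have hfin := planeMat_finite pt
  have hrep := planeMat_rep pt
  have hs : IsSimple (planeMat pt) := planeMat_simple pt hne0 hsimple
  have hrank : rk (planeMat pt) (planeMat pt).E = 3 :=
    planeMat_rank_eq pt ⟨i0, j0, l0, linearIndependent_of_det3 hdet⟩
  have hblock := planeMat_block pt hblk
  have hmin : ∀ N : Matroid (Fin m), N.IsMinor (planeMat pt) →
      N ≠ planeMat pt → IsSimple N → critExp N (Nat.card F) ≤ (1 : ℕ) := by
    intro N hN hne hsN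
    exact minor_le hrep hs (fun G hG hGne => rank_three_flats hrep hs
      (planeMat_rank _) (planeMat_tangent _ htan) G hG hGne) hN hne (isSimple_nonloop hsN)
  refine ⟨Fin m, planeMat pt, hrank, ⟨⟨hfin, hs, ⟨3, _, hrep⟩, ?_⟩, ?_⟩, ?_, ?_⟩
  · rw [← not_le]
    intro hle
    obtain ⟨f, hf⟩ := (critExpPos_le_iff hrep 1 le_rfl).1 hle
    obtain ⟨e, he, h0⟩ := hblock (LinearMap.pi f)
    obtain ⟨i, hi⟩ := hf e he
    exact hi (congrFun h0 i)
  · rintro N hN hne ⟨hNf, hNs, ⟨n, u, hu⟩, hlt⟩
    have h1 := hmin N hN hne hNs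
    have hu' : Rep F N u := hu
    have h2 := (critExp_le_iff hu' 1).1 h1
    have h3 : critExpPos N (Nat.card F) ≤ (1 : ℕ) :=
      iInf₂_le 1 ⟨le_rfl, (eval_ne_zero_iff hu' 1).2 h2⟩
    exact absurd h3 (not_le.2 hlt)
  · rintro ⟨N, hN, hcard, hind⟩
    have hNs : IsSimple N := by
      intro x hx y hy
      rw [hind _ (by
        intro z hz
        rcases hz with rfl | rfl <;> assumption)]
      refine (Set.encard_insert_le _ _).trans ?_
      rw [Set.encard_singleton]
      norm_num
    have hr : rk N N.E ≤ 2 := by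
      rw [rk]
      apply ENat.toNat_le_of_le_natCast
      rw [Matroid.eRk_le_iff]
      intro I hI hIi
      exact (hind I hI).1 hIi
    have hne : N ≠ planeMat pt := by
      rintro rfl
      omega
    have h1 := hmin N hN hne hNs
    obtain ⟨C, D, hC, -, -, rfl⟩ := hN.exists_eq_contract_delete_disjoint
    have hrepN := hrep.minor C D hC
    obtain ⟨f, hf⟩ := (critExp_le_iff hrepN 1).1 h1
    have h2 := ncard_le_of_rank_two hrepN hNs hr f hf
    omega
  · rintro ⟨N, hN, K, hK, hNK⟩
    exact no_K4 pt hs σ hherm hN hK hNK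

end Pool.Agent.Results.MP_e444a1_co.HermitianCurves
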